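import Pool.Agent.Lib.MP_6b8a80_h32.T9d_Quant

set_option autoImplicit false

open MeasureTheory ProbabilityTheory

namespace Pool.Agent.Results.MP_6b8a80_pr.UniformSensitivity

/-- Maximal number of points of `A` in a chain for the coordinatewise order. -/
noncomputable def lastPassage (A : Set (ℝ × ℝ)) : ℕ :=
  sSup {k : ℕ | ∃ S : Finset (ℝ × ℝ), (↑S : Set (ℝ × ℝ)) ⊆ A ∧
    IsChain (· ≤ ·) (↑S : Set (ℝ × ℝ)) ∧ S.card = k}

/-- Uniform distribution on the square `[0, n]²`. -/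
noncomputable def unifSquare (n : ℕ) : Measure (ℝ × ℝ) :=
  (ENNReal.ofReal ((n : ℝ) ^ 2))⁻¹ •
    volume.restrict (Set.Icc (0 : ℝ × ℝ) ((n : ℝ), (n : ℝ)))

/-- The Poisson process in `[0, n]²` and its noise: `N ω` points `X i ω` with marks `U i ω`,
and `M ω` new points `Y j ω`. -/
structure Noise (n : ℕ) (t : NNReal) {Ω : Type} [MeasurableSpace Ω] (P : Measure Ω)
    (N M : Ω → ℕ) (X Y : ℕ → Ω → ℝ × ℝ) (U : ℕ → Ω → ℝ) : Prop where
  /-- `N`, `M` are independent Poisson variables with means `n²`, `t n²`. -/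
  counts : Measure.map (fun ω => (N ω, M ω)) P =
    (poissonMeasure ((n : NNReal) ^ 2)).prod (poissonMeasure (t * (n : NNReal) ^ 2))
  /-- For each `i`, `X i`, `U i`, `Y i` are independent; `X i`, `Y i` are uniform on `[0, n]²`
  and `U i` is uniform on `[0, 1]`. -/
  points : ∀ i, Measure.map (fun ω => ((X i ω, U i ω), Y i ω)) P =
    ((unifSquare n).prod (volume.restrict (Set.Icc (0 : ℝ) 1))).prod (unifSquare n)
  /-- The triples for different `i` are independent. -/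
  indep : iIndepFun (fun i ω => ((X i ω, U i ω), Y i ω)) P
  /-- The counts are independent of all points and marks. -/
  indep_counts : IndepFun (fun ω => (N ω, M ω)) (fun ω i => ((X i ω, U i ω), Y i ω)) P

/-- The points of the Poisson process in `[0, n]²`. -/
def eta {Ω : Type} (N : Ω → ℕ) (X : ℕ → Ω → ℝ × ℝ) (ω : Ω) : Set (ℝ × ℝ) :=
  {p | ∃ i < N ω, X i ω = p}

/-- The noisy process: the point `X i` is kept iff `t ≤ U i` (probability `1 - t`), and the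
points `Y j`, `j < M`, are added. -/
def etaNoise {Ω : Type} (t : NNReal) (N M : Ω → ℕ) (X Y : ℕ → Ω → ℝ × ℝ) (U : ℕ → Ω → ℝ)
    (ω : Ω) : Set (ℝ × ℝ) :=
  {p | (∃ i < N ω, (t : ℝ) ≤ U i ω ∧ X i ω = p) ∨ ∃ j < M ω, Y j ω = p}

/-- Pearson correlation. -/
noncomputable def corr {Ω : Type} [MeasurableSpace Ω] (f g : Ω → ℝ) (P : Measure Ω) : ℝ :=
  covariance f g P / Real.sqrt (variance f P * variance g P)

theorem result :
    ∃ A : ℝ, 0 < A ∧ ∀ K : ℕ, ∃ n₀ : ℕ, ∀ n : ℕ, n₀ ≤ n → 1 ≤ n →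
      ∀ t : NNReal, 0 < t → t ≤ 1 →
      ∀ (Ω : Type) [MeasurableSpace Ω] (P : Measure Ω) [IsProbabilityMeasure P]
        (N M : Ω → ℕ) (X Y : ℕ → Ω → ℝ × ℝ) (U : ℕ → Ω → ℝ), Noise n t P N M X Y U →
      let L : Ω → ℝ := fun ω => (lastPassage (eta N X ω) : ℝ)
      let L' : Ω → ℝ := fun ω => (lastPassage (etaNoise t N M X Y U ω) : ℝ)
      (MemLp L 2 P ∧ MemLp L' 2 P ∧ 0 < variance L P ∧ 0 < variance L' P) ∧
      0 ≤ corr L L' P ∧
      corr L L' P ≤ A * K * (n : ℝ) ^ (-(1 : ℝ) / 60) + (1 - (t : ℝ)) ^ (K + 1) := by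
  obtain ⟨c, hc, h⟩ := LPP.noise_quant
  refine ⟨1 / c, by positivity, fun K => ?_⟩
  obtain ⟨n₀, h₀⟩ := h K
  refine ⟨n₀, fun n hn hn1 t ht0 ht1 Ω _ P _ N M X Y U hM => ?_⟩
  have hmod : LPP.Model n t P (fun ω => (N ω, M ω)) (fun i ω => ((X i ω, U i ω), Y i ω)) :=
    ⟨by rw [LPP.T9b.toMeasure_poisson, LPP.T9b.toMeasure_poisson]; exact hM.counts,
      hM.points, hM.indep, hM.indep_counts⟩
  obtain ⟨m1, m2, -⟩ := LPP.approx n hn1 t ht1 P _ _ hmod
  obtain ⟨v1, v2, c1, c2⟩ := h₀ n hn hn1 t ht0 ht1 Ω P _ _ hmod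
  intro L L'
  have e1 : LPP.L1 (fun ω => (N ω, M ω)) (fun i ω => ((X i ω, U i ω), Y i ω)) = L := rfl
  have e2 : LPP.L2 t (fun ω => (N ω, M ω)) (fun i ω => ((X i ω, U i ω), Y i ω)) = L' := rfl
  rw [e1] at m1 v1 v2 c1 c2
  rw [e2] at m2 v2 c1 c2
  have hn0 : (0 : ℝ) < n := by exact_mod_cast hn1
  have hVpos : 0 < variance L P := lt_of_lt_of_le (by positivity) v1
  have hcorr : corr L L' P = covariance L L' P / variance L P := by
    unfold corr
    rw [← v2, Real.sqrt_mul_self hVpos.le]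
  refine ⟨⟨m1, m2, hVpos, by rw [← v2]; exact hVpos⟩, ?_, ?_⟩
  · rw [hcorr]
    exact div_nonneg c1 hVpos.le
  · rw [hcorr, div_le_iff₀ hVpos]
    refine c2.trans ?_
    have e3 : (n : ℝ) ^ ((13 : ℝ) / 20) = (n : ℝ) ^ (-(1 : ℝ) / 60) * (n : ℝ) ^ ((2 : ℝ) / 3) := by
      rw [← Real.rpow_add hn0]; norm_num
    have h5 : (K : ℝ) * (n : ℝ) ^ ((13 : ℝ) / 20) ≤
        1 / c * K * (n : ℝ) ^ (-(1 : ℝ) / 60) * variance L P := by
      calc (K : ℝ) * (n : ℝ) ^ ((13 : ℝ) / 20)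
          = 1 / c * K * (n : ℝ) ^ (-(1 : ℝ) / 60) * (c * (n : ℝ) ^ ((2 : ℝ) / 3)) := by
            rw [e3]; field_simp
        _ ≤ _ := mul_le_mul_of_nonneg_left v1 (by positivity)
    linarith

end Pool.Agent.Results.MP_6b8a80_pr.UniformSensitivity
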